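import Pool.Agent.H71.CQ.Basic

/-!
# DEG: the degree of a closed label depends only on the colour
-/

set_option autoImplicit false

open Set

namespace Pool.Agent.H34.CQ

open Pool.Agent.H71.CQ

theorem sep_fin {L : Type} (N : NF L) (hN : N.Sep) (l : L) (n : ℕ) (hl : l ∈ N.B n) (S : Finset L) :
    l ∉ S → ∃ k, l ∈ N.B k ∧ N.B k ⊆ N.B n ∧ ∀ s ∈ S, s ∉ N.B k := by
  classical
  induction S using Finset.induction_on with
  | empty => intro _; exact ⟨n, hl, Subset.rfl, fun s hs => absurd hs (Finset.notMem_empty s)⟩
  | insert a S _ ih =>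
    intro hlS
    rw [Finset.mem_insert, not_or] at hlS
    obtain ⟨k, hk1, hk2, hk3⟩ := ih hlS.2
    obtain ⟨m, hm1, hm2⟩ := hN.sep l a hlS.1
    obtain ⟨j, hj⟩ := hN.inter k m
    refine ⟨j, ?_, ?_, ?_⟩
    · rw [hj]
      exact ⟨hk1, hm1⟩
    · rw [hj]
      exact inter_subset_left.trans hk2
    · intro s hs hsj
      rw [hj] at hsj
      rcases Finset.mem_insert.1 hs with rfl | hs
      · exact hm2 hsj.2
      · exact hk3 s hs hsj.1

theorem pf_DEG : T_DEG := by
  classical
  intro L N hN V V' e e' he he' x x' hxx l hl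
  by_cases hs : N.src l = e x x
  · unfold Op at hl
    simp only [not_forall] at hl
    obtain ⟨n, hn, hnu⟩ := hl
    rw [hs] at hnu
    have hA : {y | e x y ∈ N.B n}.Finite := by
      rw [← Set.encard_ne_top_iff, he.cnt]
      exact hnu
    have hA' : {y | e' x' y ∈ N.B n}.Finite := by
      rw [← Set.encard_ne_top_iff, he'.cnt, ← hxx]
      exact hnu
    have hfin : (((fun y => e x y) '' {y | e x y ∈ N.B n} ∪
        (fun y => e' x' y) '' {y | e' x' y ∈ N.B n}) \ {l}).Finite :=
      ((hA.image _).union (hA'.image _)).sdiff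
    obtain ⟨k, hk1, hk2, hk3⟩ := sep_fin N hN l n hn hfin.toFinset (by simp)
    have h1 : {y | e x y = l} = {y | e x y ∈ N.B k} := by
      ext y
      constructor
      · intro hy
        change e x y ∈ N.B k
        have hy' : e x y = l := hy
        rw [hy']
        exact hk1
      · intro hy
        by_contra hne
        refine hk3 (e x y) ?_ hy
        rw [Set.Finite.mem_toFinset]
        exact ⟨Or.inl ⟨y, hk2 hy, rfl⟩, hne⟩
    have h2 : {y | e' x' y = l} = {y | e' x' y ∈ N.B k} := by
      ext y
      constructor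
      · intro hy
        change e' x' y ∈ N.B k
        have hy' : e' x' y = l := hy
        rw [hy']
        exact hk1
      · intro hy
        by_contra hne
        refine hk3 (e' x' y) ?_ hy
        rw [Set.Finite.mem_toFinset]
        exact ⟨Or.inr ⟨y, hk2 hy, rfl⟩, hne⟩
    constructor
    · refine hA.subset ?_
      intro y hy
      have hy' : e x y = l := hy
      change e x y ∈ N.B n
      rw [hy']
      exact hn
    · rw [h1, h2, he.cnt, he'.cnt, hxx]
  · have h1 : {y | e x y = l} = ∅ := by
      ext y
      simp only [mem_setOf_eq, mem_empty_iff_false, iff_false]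
      rintro rfl
      exact hs (he.src x y).symm
    have h2 : {y | e' x' y = l} = ∅ := by
      ext y
      simp only [mem_setOf_eq, mem_empty_iff_false, iff_false]
      rintro rfl
      rw [hxx] at hs
      exact hs (he'.src x' y).symm
    rw [h1, h2]
    exact ⟨Set.finite_empty, by simp⟩

end Pool.Agent.H34.CQ
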